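import Pool.Agent.T2H38.MD.Div

/-!
# Murre's conjecture (B) for cycles motivated by divisors

`𝒱` is a class of smooth projective geometrically irreducible varieties over the field `k` closed
under products (for example all of them), `C` the Chow groups with rational coefficients (in the
form of their formal properties, `IsChowProj`), `H` a Weil cohomology theory (`IsWeilProj`), with the
classical fact that correspondences acting as zero on `H^1` act as zero on `Pic^0 ⊗ ℚ`
(`PicardFaithful`).

Let the homologically trivial cycles of codimension `j` on `X` be motivated by divisors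
(`FromDivisors`): `x = ∑ b_s (a_s x)` where `a_s` maps `CH^j(X)` to `CH^1(Y_s)` and `b_s` maps
`CH^1(Y_s)` to `CH^j(X)`. This follows from a suitable decomposition of the diagonal
(`DiagonalDec`); for `j = 2` it holds, by the theorem of Bloch and Srinivas, if the zero-cycles on
`X` are supported on a curve, for instance if `X` is rationally connected. Then
`F^0 CH^j(X) = CH^j(X)` for every Chow-Kunneth decomposition of `X`, without any hypothesis of
nilpotence. If this is so for `2 ≤ j < dim X / 2` (for `dim X ≤ 6`: for `j = 2`), then Murre's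
conjecture (B) holds for every Chow-Kunneth decomposition of `X` which satisfies motivic hard
Lefschetz.
-/

open CategoryTheory AlgebraicGeometry

set_option autoImplicit false

universe u v w

namespace Pool.Agent.Results.MP_d6e134_ag.CyclesFromDivisors

open Pool.Agent.H914 Pool.Agent.W492.BB Pool.Agent.TH133 Pool.Agent.Q73.LS
  Pool.Agent.T2H38.MD

/-- `F^0 CH^j(X) = CH^j(X)`, for all Chow-Kunneth decompositions, if the homologically trivial
cycles of codimension `j` are motivated by divisors; and (B) under motivic hard Lefschetz. -/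
theorem result {k : Type u} [Field k] {𝒱 : VarClass k} (C : TheoryData.{u, v, 0} 𝒱 ℚ)
    [IsChowProj C] {K : Type w} [Field K] (H : WeilTheoryData.{u, v, w} C K) [IsWeilProj H]
    (hP : PicardFaithful H) (X : 𝒱.Obj) :
    (∀ j : ℕ, FromDivisors H X j ∨ DiagonalDec C X j →
      ∀ π, IsCK H X π → ckFil C π j 0 = C.gr X j) ∧
    ((∀ j : ℕ, 2 ≤ j → 2 * j < X.dim → FromDivisors H X j ∨ DiagonalDec C X j) →
      ∀ π, IsCK H X π → HasLefschetz C π →
        ∀ j : ℕ, ckFil C π j 0 = C.gr X j ∧ ckFil C π j (j + 1) = ⊥) := by
  have h1 : ∀ j : ℕ, FromDivisors H X j ∨ DiagonalDec C X j → ∀ π, IsCK H X π →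
      ckFil C π j 0 = C.gr X j := by
    intro j h π hπ
    rcases h with h | h
    · exact B0_of_D hπ (DAt.of_divisors hP h hπ)
    · exact B0_of_D hπ (DAt.of_divisors hP (FromDivisors.of_dec h) hπ)
  refine ⟨h1, fun h π hπ hM => ?_⟩
  obtain ⟨h2, -, h3⟩ := murreB_lefschetz hP hπ hM
  exact fun j => ⟨h3 (fun j h4 h5 => h1 j (h j h4 h5) π hπ) j, h2 j⟩

end Pool.Agent.Results.MP_d6e134_ag.CyclesFromDivisors
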