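import Pool.Agent.T2H38.MD.SquaresB

/-!
# Murre's conjecture (B): reduction of the first half to the middle codimension of squares

`𝒱` is a class of smooth projective geometrically irreducible varieties over the field `k` closed
under products (for example all of them), `C` the Chow groups with rational coefficients (in the
form of their formal properties, `IsChowProj`), `H` a Weil cohomology theory (`IsWeilProj`).

For Chow-Kunneth decompositions `π` of `X` and `ρ` of `Z` let `dualProd C π ρ` be the product of the
dual of `π` with `ρ`; it is a Chow-Kunneth decomposition of `X × Z` (first part of the theorem).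

1. `F^0 CH^n(X × Z) = CH^n(X × Z)` for this decomposition implies `F^0 CH^l(Z) = CH^l(Z)` for `ρ`,
   if `l ≤ n ≤ dim X + l`.
2. For `X × X` (with `ρ = π`) and `n = dim X` this equality means that the homologically trivial
   correspondences of degree zero of `X` do not raise the `π`-weights; it implies
   `F^0 CH^l(X) = CH^l(X)` for all `l`, and all of (B) for `X` and `π` if `π` satisfies motivic hard
   Lefschetz for some correspondence of degree one.
3. The first half of (B) holds for all varieties of the class (all decompositions, all codimensions)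
   if and only if it holds in the middle codimension for the squares `X × X` and the decompositions
   of 2, if and only if homologically trivial correspondences of degree zero never raise weights.
4. The first half of (B) in codimension `n` for all varieties of the class implies it in codimension
   `l` for all of them, for all `l ≤ n`.
-/

open CategoryTheory AlgebraicGeometry

set_option autoImplicit false

universe u v w

namespace Pool.Agent.Results.MP_d6e134_ag.SquaresMiddleCodimension

open Pool.Agent.H914 Pool.Agent.W492.BB Pool.Agent.W550.Corr Pool.Agent.TH133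
  Pool.Agent.Q73.LS Pool.Agent.T2H38.MD

/-- The first half of Murre's conjecture (B) in the middle codimension of squares implies the first
half of (B) in general. -/
theorem result {k : Type u} [Field k] {𝒱 : VarClass k} (C : TheoryData.{u, v, 0} 𝒱 ℚ)
    [IsChowProj C] {K : Type w} [Field K] (H : WeilTheoryData.{u, v, w} C K) [IsWeilProj H] :
    (∀ (X Z : 𝒱.Obj) (π : ℕ → C.A (X.prod X)) (ρ : ℕ → C.A (Z.prod Z)), IsCK H X π →
      IsCK H Z ρ → IsCK H (X.prod Z) (dualProd C π ρ) ∧ ∀ n l : ℕ, l ≤ n → n ≤ X.dim + l →
        ckFil C (dualProd C π ρ) n 0 = C.gr (X.prod Z) n → ckFil C ρ l 0 = C.gr Z l) ∧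
    (∀ (X : 𝒱.Obj) (π : ℕ → C.A (X.prod X)), IsCK H X π →
      (ckFil C (dualProd C π π) X.dim 0 = C.gr (X.prod X) X.dim ↔ ∀ γ : C.A (X.prod X),
        C.Deg X.dim γ → H.cl γ = 0 → ∀ a b : ℕ, a < b → C.comp (C.comp (π a) γ) (π b) = 0) ∧
      (ckFil C (dualProd C π π) X.dim 0 = C.gr (X.prod X) X.dim →
        (∀ l : ℕ, ckFil C π l 0 = C.gr X l) ∧ (HasLefschetz C π → ∀ l : ℕ, BAt C π l))) ∧
    ((∀ X : 𝒱.Obj, MurreB0 H X) ↔
      ∀ (X : 𝒱.Obj) (π : ℕ → C.A (X.prod X)), IsCK H X π →
        ckFil C (dualProd C π π) X.dim 0 = C.gr (X.prod X) X.dim) ∧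
    ((∀ X : 𝒱.Obj, MurreB0 H X) ↔
      ∀ (X : 𝒱.Obj) (π : ℕ → C.A (X.prod X)), IsCK H X π → ∀ γ : C.A (X.prod X),
        C.Deg X.dim γ → H.cl γ = 0 → ∀ a b : ℕ, a < b → C.comp (C.comp (π a) γ) (π b) = 0) ∧
    (∀ n : ℕ, (∀ (X : 𝒱.Obj) (π : ℕ → C.A (X.prod X)), IsCK H X π → ckFil C π n 0 = C.gr X n) →
      ∀ l ≤ n, ∀ (X : 𝒱.Obj) (π : ℕ → C.A (X.prod X)), IsCK H X π →
        ckFil C π l 0 = C.gr X l) := by
  refine ⟨fun X Z π ρ h h' => ⟨isCK_dualProd h h', fun n l hl hn hB => b0_of_prod h h' hl hn hB⟩,
    fun X π h => ⟨(b0_square_iff h).trans (raise_iff h), fun hB =>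
      ⟨b0_of_square h ((raise_iff h).1 ((b0_square_iff h).1 hB)),
        fun hM l => bAt_of_square h hM hB l⟩⟩,
    murreB0_squares_iff, murreB0_class_iff, fun n hB l hl => b0_mono hB hl⟩

end Pool.Agent.Results.MP_d6e134_ag.SquaresMiddleCodimension
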